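import Pool.Agent.Helper32.KD2.Basic

/-! # KD2-A1: integrals of powers of the sup norm (polar coordinates) -/

namespace KD.II.A1

open Finset MeasureTheory Set

theorem nontriv {d : ℕ} (hd : 1 ≤ d) : Nontrivial (Vd d) := by
  have : Nonempty (Fin d) := ⟨⟨0, hd⟩⟩
  exact Function.nontrivial

theorem finr (d : ℕ) : Module.finrank ℝ (Vd d) = d := by
  simp [Vd]

theorem pow_mul_rpow {d : ℕ} (hd : 1 ≤ d) {y : ℝ} (hy : 0 < y) (e : ℝ) :
    y ^ (d - 1) * y ^ e = y ^ ((d : ℝ) - 1 + e) := by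
  have h1 : y ^ (d - 1) = y ^ ((d : ℝ) - 1) := by
    rw [← Real.rpow_natCast, Nat.cast_sub hd, Nat.cast_one]
  rw [h1, ← Real.rpow_add hy]

theorem far_integrable (d : ℕ) (hd : 1 ≤ d) (s : ℝ) (hs : 0 < s) (ρ : ℝ) (hρ : 0 < ρ) :
    IntegrableOn (kw d s) (far d ρ) := by
  have := nontriv hd
  rw [← integrable_indicator_iff (far_meas ρ)]
  have h1 : (far d ρ).indicator (kw d s) =
      fun w : Vd d => (Ici ρ).indicator (fun y : ℝ => y ^ (-((d : ℝ) + 2 * s))) ‖w‖ := by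
    funext w
    by_cases hw : ρ ≤ ‖w‖
    · rw [indicator_of_mem (show w ∈ far d ρ from hw), indicator_of_mem (show ‖w‖ ∈ Ici ρ from hw)]
      rfl
    · rw [indicator_of_notMem (show w ∉ far d ρ from hw),
        indicator_of_notMem (show ‖w‖ ∉ Ici ρ from hw)]
  rw [h1, integrable_fun_norm_addHaar (volume : Measure (Vd d)), finr]
  have h2 : IntegrableOn (fun y : ℝ => y ^ (-1 - 2 * s)) (Ioi (ρ / 2)) :=
    integrableOn_Ioi_rpow_of_lt (by linarith) (by linarith)
  have h3 : IntegrableOn ((Ici ρ).indicator (fun y : ℝ => y ^ (-1 - 2 * s))) (Ioi 0) := by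
    refine IntegrableOn.congr_set_ae ?_ (ae_eq_refl _)
    refine (IntegrableOn.integrable_indicator ?_ measurableSet_Ici).integrableOn
    exact h2.mono_set (fun y hy => lt_of_lt_of_le (half_lt_self hρ) hy)
  refine h3.congr_fun (fun y hy => ?_) measurableSet_Ioi
  have hy0 : (0 : ℝ) < y := hy
  by_cases hy1 : ρ ≤ y
  · simp only [smul_eq_mul]
    rw [indicator_of_mem (show y ∈ Ici ρ from hy1), indicator_of_mem (show y ∈ Ici ρ from hy1),
      pow_mul_rpow hd hy0]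
    congr 1
    ring
  · simp only [smul_eq_mul]
    rw [indicator_of_notMem (show y ∉ Ici ρ from hy1),
      indicator_of_notMem (show y ∉ Ici ρ from hy1), mul_zero]

theorem bal_eq {d : ℕ} (h : ℝ) : bal d h = Metric.ball (0 : Vd d) h := by
  ext w
  simp [bal]

theorem near_int (d : ℕ) (hd : 1 ≤ d) (e : ℝ) (he : 0 < (d : ℝ) + e) (h : ℝ) (hh : 0 < h) :
    IntegrableOn (fun w : Vd d => ‖w‖ ^ e) (bal d h) := by
  have := nontriv hd
  rw [bal_eq, integrableOn_fun_norm_addHaar (volume : Measure (Vd d)) (f := fun y : ℝ => y ^ e),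
    finr]
  have h2 : IntegrableOn (fun y : ℝ => y ^ ((d : ℝ) - 1 + e)) (Ioo 0 h) :=
    (intervalIntegral.integrableOn_Ioo_rpow_iff hh).2 (by linarith)
  refine h2.congr_fun (fun y hy => ?_) measurableSet_Ioo
  simp only [smul_eq_mul]
  rw [pow_mul_rpow hd hy.1]

theorem near_val (d : ℕ) (hd : 1 ≤ d) (e : ℝ) (he : 0 < (d : ℝ) + e) (h : ℝ) (hh : 0 < h) :
    ∫ w in bal d h, ‖w‖ ^ e =
      ((d : ℝ) * (volume : Measure (Vd d)).real (Metric.ball (0 : Vd d) 1) / ((d : ℝ) + e)) *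
        h ^ ((d : ℝ) + e) := by
  have := nontriv hd
  rw [← integral_indicator (bal_meas h)]
  have h1 : (bal d h).indicator (fun w : Vd d => ‖w‖ ^ e) =
      fun w : Vd d => (Iio h).indicator (fun y : ℝ => y ^ e) ‖w‖ := by
    funext w
    by_cases hw : ‖w‖ < h
    · rw [indicator_of_mem (show w ∈ bal d h from hw), indicator_of_mem (show ‖w‖ ∈ Iio h from hw)]
    · rw [indicator_of_notMem (show w ∉ bal d h from hw),
        indicator_of_notMem (show ‖w‖ ∉ Iio h from hw)]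
  rw [h1, integral_fun_norm_addHaar (volume : Measure (Vd d)), finr]
  have h2 : ∫ y in Ioi (0 : ℝ), y ^ (d - 1) • (Iio h).indicator (fun y : ℝ => y ^ e) y =
      ∫ y in Ioo (0 : ℝ) h, y ^ ((d : ℝ) - 1 + e) := by
    rw [← integral_indicator measurableSet_Ioi, ← integral_indicator measurableSet_Ioo]
    congr 1
    funext y
    by_cases hy0 : 0 < y
    · rw [indicator_of_mem (show y ∈ Ioi (0 : ℝ) from hy0)]
      by_cases hy1 : y < h
      · rw [indicator_of_mem (show y ∈ Ioo 0 h from ⟨hy0, hy1⟩),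
          indicator_of_mem (show y ∈ Iio h from hy1), smul_eq_mul, pow_mul_rpow hd hy0]
      · rw [indicator_of_notMem (show y ∉ Ioo 0 h from fun hc => hy1 hc.2),
          indicator_of_notMem (show y ∉ Iio h from hy1), smul_zero]
    · rw [indicator_of_notMem (show y ∉ Ioi (0 : ℝ) from hy0),
        indicator_of_notMem (show y ∉ Ioo 0 h from fun hc => hy0 hc.1)]
  have h3 : ∫ y in Ioo (0 : ℝ) h, y ^ ((d : ℝ) - 1 + e) = h ^ ((d : ℝ) + e) / ((d : ℝ) + e) := by
    rw [← integral_Ioc_eq_integral_Ioo, ← intervalIntegral.integral_of_le hh.le,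
      integral_rpow (Or.inl (by linarith)), Real.zero_rpow (by linarith)]
    have h4 : (d : ℝ) - 1 + e + 1 = (d : ℝ) + e := by ring
    rw [h4, sub_zero]
  rw [h2, h3, nsmul_eq_mul, smul_eq_mul]
  ring

theorem near_bound (d : ℕ) (hd : 1 ≤ d) (s : ℝ) (hs : 0 < s) (hs1 : s < 1) :
    ∃ C : ℝ, 0 ≤ C ∧ ∀ h : ℝ, 0 < h →
      IntegrableOn (fun w : Vd d => ‖w‖ ^ 2 * kw d s w) (bal d h) ∧
      ∫ w in bal d h, ‖w‖ ^ 2 * kw d s w ≤ C * h ^ (2 - 2 * s) := by
  have := nontriv hd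
  have hd' : (1 : ℝ) ≤ d := by exact_mod_cast hd
  have hde : (d : ℝ) + (2 - ((d : ℝ) + 2 * s)) = 2 - 2 * s := by ring
  have key : ∀ᵐ w : Vd d, ‖w‖ ^ 2 * kw d s w = ‖w‖ ^ (2 - ((d : ℝ) + 2 * s)) := by
    have h0 : ∀ᵐ w : Vd d, w ≠ 0 := by
      have h1 : (volume : Measure (Vd d)) {0} = 0 := measure_singleton 0
      filter_upwards [compl_mem_ae_iff.2 h1] with w hw
      exact hw
    filter_upwards [h0] with w hw
    have hw' : 0 < ‖w‖ := norm_pos_iff.2 hw
    unfold kw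
    rw [← Real.rpow_natCast ‖w‖ 2, ← Real.rpow_add hw']
    congr 1
  refine ⟨(d : ℝ) * (volume : Measure (Vd d)).real (Metric.ball (0 : Vd d) 1) /
    ((d : ℝ) + (2 - ((d : ℝ) + 2 * s))), ?_, fun h hh => ⟨?_, ?_⟩⟩
  · rw [hde]
    have : 0 < 2 - 2 * s := by linarith
    positivity
  · have h1 := near_int d hd (2 - ((d : ℝ) + 2 * s)) (by rw [hde]; linarith) h hh
    exact (integrableOn_congr_fun_ae (ae_restrict_of_ae key)).2 h1
  · have h1 := near_val d hd (2 - ((d : ℝ) + 2 * s)) (by rw [hde]; linarith) h hh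
    rw [integral_congr_ae (ae_restrict_of_ae key), h1, hde]

theorem mid_integrable (d : ℕ) (hd : 1 ≤ d) (s : ℝ) (hs : 0 < s) (hs1 : s < 1) :
    IntegrableOn (fun w : Vd d => ‖w‖ ^ (1 + s) * kw d s w) (bal d 1) := by
  have := nontriv hd
  have key : ∀ᵐ w : Vd d, ‖w‖ ^ (1 + s) * kw d s w = ‖w‖ ^ (1 + s - ((d : ℝ) + 2 * s)) := by
    have h0 : ∀ᵐ w : Vd d, w ≠ 0 := by
      have h1 : (volume : Measure (Vd d)) {0} = 0 := measure_singleton 0
      filter_upwards [compl_mem_ae_iff.2 h1] with w hw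
      exact hw
    filter_upwards [h0] with w hw
    have hw' : 0 < ‖w‖ := norm_pos_iff.2 hw
    unfold kw
    rw [← Real.rpow_add hw']
    congr 1
  have h1 := near_int d hd (1 + s - ((d : ℝ) + 2 * s)) (by linarith) 1 one_pos
  exact (integrableOn_congr_fun_ae (ae_restrict_of_ae key)).2 h1

end KD.II.A1
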